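import Pool.Agent.H81.FX.Targets

/-!
The branching lemma (row BRL).
-/

set_option autoImplicit false

namespace Pool.Agent.H5.FCX

open Pool.Agent.H81.FX Finset

variable {ι : Type} [DecidableEq ι]

theorem G_nonneg (t : List (Lt ι)) (k : FreeGroup ι → ℝ) (hk : ∀ v, 0 ≤ k v)
    (x : FreeGroup ι) (s : Lt ι) : 0 ≤ G t k x s := by
  unfold G
  refine Finset.sum_nonneg fun n _ => ?_
  split_ifs
  · exact hk _
  · exact le_rfl

theorem New_nonneg (t : List (Lt ι)) (k : FreeGroup ι → ℝ) (hk : ∀ v, 0 ≤ k v)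
    (x : FreeGroup ι) : 0 ≤ New t k x := by
  unfold New
  refine Finset.sum_nonneg fun n _ => ?_
  split_ifs
  · exact hk _
  · exact le_rfl

theorem G_pos (t : List (Lt ι)) (k : FreeGroup ι → ℝ) (x : FreeGroup ι) (s : Lt ι)
    (h : 0 < G t k x s) : ∃ n, n < t.length ∧ t[n]? = some s ∧ k (x * (pre t n)⁻¹) ≠ 0 := by
  by_contra hcon
  push Not at hcon
  have h1 : G t k x s = 0 := by
    unfold G
    refine Finset.sum_eq_zero fun n hn => ?_
    by_cases hs : t[n]? = some s
    · rw [if_pos hs]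
      exact hcon n (Finset.mem_range.1 hn) hs
    · rw [if_neg hs]
  rw [h1] at h
  exact lt_irrefl _ h

theorem pf_BRL (hWRD : T_WRD) (hPRE : T_PRE) (hTOT : T_TOT) (hREC : T_REC) (hNEW : T_NEW)
    (hCVX : T_CVX) : T_BRL := by
  have _h := hPRE
  intro ι _ t ht Z k hk hkZ J hJ q hq A hA
  classical
  set L := t.toFinset with hL
  have hmemL : ∀ (x : FreeGroup ι) (s : Lt ι), 0 < G t k x s → s ∈ L := by
    intro x s h
    obtain ⟨n, hn, hs, -⟩ := G_pos t k x s h
    rw [hL, List.mem_toFinset]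
    exact List.mem_of_getElem? hs
  set X : Finset (FreeGroup ι) :=
    (Z ×ˢ range (t.length + 1)).image (fun p => p.1 * pre t p.2) ∪ ({1} ∪ A.image Prod.fst)
    with hX
  have hmemX : ∀ (x : FreeGroup ι) (s : Lt ι), 0 < G t k x s → x ∈ X := by
    intro x s h
    obtain ⟨n, hn, hs, hkn⟩ := G_pos t k x s h
    rw [hX]
    refine Finset.mem_union_left _ (Finset.mem_image.2 ⟨(x * (pre t n)⁻¹, n), ?_, ?_⟩)
    · refine Finset.mem_product.2 ⟨?_, Finset.mem_range.2 (by omega)⟩
      by_contra hcon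
      exact hkn (hkZ _ hcon)
    · simp only
      rw [inv_mul_cancel_right]
  set φ : ℝ → ℝ := fun g => max (g - q) 0 with hφ
  have hφ0 : ∀ g, 0 ≤ φ g := fun g => le_max_right _ _
  -- step 1
  have h1 : ∀ x : FreeGroup ι, q * ((A.filter fun p => p.1 = x).card : ℝ) +
      ∑ s ∈ L.filter (fun s => Up x s), φ (G t k x s) ≤ φ (Tot t k x) := by
    intro x
    have hc : ((A.filter fun p => p.1 = x).image Prod.snd).card =
        (A.filter fun p => p.1 = x).card := by
      refine Finset.card_image_of_injOn ?_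
      intro p hp p' hp' hpp
      have e1 := (Finset.mem_filter.1 (Finset.mem_coe.1 hp)).2
      have e2 := (Finset.mem_filter.1 (Finset.mem_coe.1 hp')).2
      exact Prod.ext (e1.trans e2.symm) hpp
    have hAx : ∀ s ∈ (A.filter fun p => p.1 = x).image Prod.snd, (x, s) ∈ A := by
      intro s hs
      obtain ⟨p, hp, rfl⟩ := Finset.mem_image.1 hs
      have e1 := Finset.mem_filter.1 hp
      have e2 : p = (x, p.2) := Prod.ext e1.2 rfl
      rw [← e2]
      exact e1.1
    have h2 := hCVX (Lt ι) (L.filter fun s => Up x s) ((A.filter fun p => p.1 = x).image Prod.snd)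
      (G t k x) q hq (fun s _ => G_nonneg t k hk x s) ?_ ?_ ?_
    · rw [hc] at h2
      have h3 : ∑ s ∈ L.filter (fun s => Up x s), G t k x s = Tot t k x := by
        rw [hTOT ι t k x L (fun s hs => List.mem_toFinset.2 hs), Finset.sum_filter]
      rw [h3] at h2
      exact h2
    · intro s hs
      have e1 := hA _ (hAx s hs)
      exact Finset.mem_filter.2 ⟨hmemL x s (hq.trans_le e1.2.2), e1.1⟩
    · intro s hs
      exact (hA _ (hAx s hs)).2.2
    · rintro ⟨s, hs⟩
      have e1 := hA _ (hAx s hs)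
      have e2 := hJ x s e1.1 (hq.trans_le e1.2.2)
      have e3 : q ≤ G t k x (J x) := e1.2.2.trans e2.2
      refine ⟨J x, Finset.mem_filter.2 ⟨hmemL x _ (hq.trans_le e3), e2.1⟩, fun hj => ?_, e3⟩
      exact (hA _ (hAx _ hj)).2.1 rfl
  -- the pairs
  set P : Finset (FreeGroup ι × Lt ι) := (X ×ˢ L).filter fun p => Up p.1 p.2 with hP
  have h2 : ∑ p ∈ P, φ (G t k p.1 p.2) =
      ∑ x ∈ X, ∑ s ∈ L.filter (fun s => Up x s), φ (G t k x s) := by
    rw [hP, Finset.sum_filter, Finset.sum_product]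
    refine Finset.sum_congr rfl fun x _ => ?_
    rw [Finset.sum_filter]
  have hcard : (A.card : ℝ) = ∑ x ∈ X, ((A.filter fun p => p.1 = x).card : ℝ) := by
    rw [← Nat.cast_sum]
    congr 1
    refine Finset.card_eq_sum_card_fiberwise fun p hp => ?_
    rw [hX]
    exact Finset.mem_coe.2 (Finset.mem_union_right _ (Finset.mem_union_right _
      (Finset.mem_image.2 ⟨p, hp, rfl⟩)))
  have h3 : q * A.card + ∑ p ∈ P, φ (G t k p.1 p.2) ≤ ∑ x ∈ X, φ (Tot t k x) := by
    rw [hcard, h2, Finset.mul_sum, ← Finset.sum_add_distrib]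
    exact Finset.sum_le_sum fun x _ => h1 x
  -- step 3
  set F : FreeGroup ι → ℝ := fun y => ∑ p ∈ P, if p.1 * el p.2 = y then φ (G t k p.1 p.2) else 0
    with hF
  have hF0 : ∀ y, 0 ≤ F y := fun y => Finset.sum_nonneg fun p _ => by
    split_ifs
    · exact hφ0 _
    · exact le_rfl
  have h4 : ∀ y : FreeGroup ι, φ (Tot t k y) ≤ F y + New t k y := by
    intro y
    have hN := New_nonneg t k hk y
    have hFy := hF0 y
    rcases eq_or_ne y 1 with hy | hy
    · have h5 := (hREC ι t ht k hk).2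
      rw [← hy] at h5
      refine max_le ?_ (by linarith)
      linarith
    · obtain ⟨l, hl⟩ : ∃ l, Ends y l := by
        have h6 : y.toWord ≠ [] := fun h => hy (FreeGroup.toWord_eq_nil_iff.1 h)
        exact ⟨y.toWord.getLast h6, List.getLast?_eq_getLast_of_ne_nil h6⟩
      have hup : Up (y * (el l)⁻¹) l := (hWRD ι y l l).2.2.2.2.2.1 hl
      have h5 := (hREC ι t ht k hk).1 (y * (el l)⁻¹) l hup
      rw [inv_mul_cancel_right] at h5
      have h6 : φ (G t k (y * (el l)⁻¹) l) ≤ F y := by
        rcases le_or_gt (G t k (y * (el l)⁻¹) l) q with h7 | h7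
        · refine (max_le (by linarith) le_rfl).trans hFy
        · have h8 : 0 < G t k (y * (el l)⁻¹) l := hq.trans h7
          have h9 : (y * (el l)⁻¹, l) ∈ P := by
            rw [hP]
            exact Finset.mem_filter.2 ⟨Finset.mem_product.2 ⟨hmemX _ _ h8, hmemL _ _ h8⟩, hup⟩
          have h10 := Finset.single_le_sum (f := fun p : FreeGroup ι × Lt ι =>
            if p.1 * el p.2 = y then φ (G t k p.1 p.2) else 0) (s := P) (fun p _ => by
              split_ifs
              · exact hφ0 _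
              · exact le_rfl) h9
          simp only at h10
          rw [if_pos (inv_mul_cancel_right y (el l))] at h10
          exact h10
      have h11 : φ (Tot t k y) ≤ φ (G t k (y * (el l)⁻¹) l) + New t k y := by
        have h12 : G t k (y * (el l)⁻¹) l - q ≤ φ (G t k (y * (el l)⁻¹) l) := le_max_left _ _
        have h13 := hφ0 (G t k (y * (el l)⁻¹) l)
        refine max_le ?_ (by linarith)
        linarith
      linarith
  have h5 : ∑ y ∈ X, F y ≤ ∑ p ∈ P, φ (G t k p.1 p.2) := by
    simp only [hF]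
    rw [Finset.sum_comm]
    refine Finset.sum_le_sum fun p _ => ?_
    rw [Finset.sum_ite_eq]
    split_ifs
    · exact le_rfl
    · exact hφ0 _
  have h6 : ∑ x ∈ X, φ (Tot t k x) ≤ ∑ x ∈ X, F x + ∑ x ∈ X, New t k x := by
    rw [← Finset.sum_add_distrib]
    exact Finset.sum_le_sum fun x _ => h4 x
  have h7 := hNEW ι t ht Z k hk hkZ X
  linarith

end Pool.Agent.H5.FCX
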