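import Pool.Agent.H5.FCX.WRD

/-!
Cancellation (row CNC).
-/

set_option autoImplicit false

namespace Pool.Agent.H5.FCX

open Pool.Agent.H81.FX Finset

variable {ι : Type} [DecidableEq ι]

theorem norm_up {x : FreeGroup ι} {s : Lt ι} (h : Up x s) : (x * el s).norm = x.norm + 1 := by
  unfold FreeGroup.norm
  rw [up_word h, List.length_append, List.length_singleton]

theorem norm_down {x : FreeGroup ι} {s : Lt ι} (h : ¬ Up x s) :
    (x * el s).norm + 1 = x.norm := by
  unfold FreeGroup.norm
  rw [down_word h, List.length_dropLast]
  have h1 : x.toWord.length ≠ 0 := by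
    rw [not_up h]
    simp
  omega

/-- induction by letters on the right -/
theorem ind {P : FreeGroup ι → Prop} (h1 : P 1)
    (h2 : ∀ (z : FreeGroup ι) (s : Lt ι), Up z s → P z → P (z * el s)) (z : FreeGroup ι) :
    P z := by
  have key : ∀ (L : List (Lt ι)), ∀ z : FreeGroup ι, z.toWord = L → P z := by
    intro L
    induction L using List.reverseRecOn with
    | nil =>
      intro z hz
      rw [FreeGroup.toWord_eq_nil_iff] at hz
      rw [hz]
      exact h1
    | append_singleton L s ih =>
      intro z hz
      have h3 : FreeGroup.IsReduced (L ++ [s]) := by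
        rw [← hz]
        exact FreeGroup.isReduced_toWord
      have h4 := (red_concat _ _).1 h3
      have h5 : (FreeGroup.mk L).toWord = L := by
        rw [FreeGroup.toWord_mk, h4.1.reduce_eq]
      have h6 : Up (FreeGroup.mk L) s := by
        unfold Up
        rw [h5]
        exact h4.2
      have h7 : z = FreeGroup.mk L * el s := by
        rw [← FreeGroup.mk_toWord (x := z), hz]
        unfold el
        rw [FreeGroup.mul_mk]
      rw [h7]
      exact h2 _ s h6 (ih _ h5)
  exact key _ z rfl

theorem canc_or (z : FreeGroup ι) : ∀ h : FreeGroup ι,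
    Canc h z ∨ (h * z).toWord.getLast? = z.toWord.getLast? := by
  induction z using ind with
  | h1 =>
    intro h
    left
    unfold Canc
    rw [mul_one, FreeGroup.norm_one, add_zero]
  | h2 z s hz ih =>
    intro h
    have hw := up_word hz
    rw [← mul_assoc]
    rcases ih h with hc | hl
    · by_cases hu : Up (h * z) s
      · right
        rw [up_word hu, hw, List.getLast?_concat, List.getLast?_concat]
      · left
        unfold Canc at hc ⊢
        have h3 := norm_down hu
        have h4 := norm_up hz
        rw [← mul_assoc]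
        omega
    · right
      have hu : Up (h * z) s := by
        unfold Up at hz ⊢
        rw [hl]
        exact hz
      rw [up_word hu, hw, List.getLast?_concat, List.getLast?_concat]

theorem canc_word {h r : FreeGroup ι} (hc : Canc h r) :
    h.toWord = (h * r).toWord ++ FreeGroup.invRev r.toWord := by
  have h1 := FreeGroup.toWord_mul_sublist (h * r) r⁻¹
  rw [mul_inv_cancel_right, FreeGroup.toWord_inv] at h1
  refine h1.eq_of_length ?_
  rw [List.length_append, FreeGroup.invRev_length]
  exact hc.symm

theorem pf_CNC (hWRD : T_WRD) : T_CNC := by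
  have _h := hWRD
  intro ι _ h z r r' s
  refine ⟨fun h1 h2 => ?_, fun h1 h2 => ?_, fun h1 h2 => ?_, fun h1 h2 h3 => ?_⟩
  · have hc : Canc h z := by
      refine (canc_or z h).resolve_right fun h3 => h1 ?_
      unfold Ends at h2 ⊢
      rw [← h3]
      exact h2
    unfold Canc at hc ⊢
    have h4 : ¬ Up (h * z) (iv s) := ends_up h2
    have h5 : Up z (iv s) := by
      unfold Up
      rw [iv_iv]
      exact h1
    have h6 := norm_down h4
    have h7 := norm_up h5
    rw [← mul_assoc]
    omega
  · refine (canc_or z h).resolve_right fun h3 => h2 ?_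
    unfold Ends at h1 ⊢
    rw [h3]
    exact h1
  · unfold Canc at h2 ⊢
    have h4 := norm_up h1
    have h5 := FreeGroup.norm_mul_le (h * r) r⁻¹
    rw [mul_inv_cancel_right, FreeGroup.norm_inv_eq] at h5
    have h6 := FreeGroup.norm_mul_le (h * (r * el s)) (el s)⁻¹
    rw [← mul_assoc h r (el s), mul_inv_cancel_right, FreeGroup.norm_inv_eq] at h6
    have h7 : (el s).norm ≤ 1 := FreeGroup.norm_mk_le
    rw [← mul_assoc] at h2
    omega
  · have e1 := canc_word h1
    have e2 := canc_word h2
    have s1 : FreeGroup.invRev r.toWord <:+ h.toWord := ⟨_, e1.symm⟩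
    have s2 : FreeGroup.invRev r'.toWord <:+ h.toWord := ⟨_, e2.symm⟩
    have s3 : FreeGroup.invRev r.toWord <:+ FreeGroup.invRev r'.toWord := by
      refine List.suffix_of_suffix_length_le s1 s2 ?_
      rw [FreeGroup.invRev_length, FreeGroup.invRev_length]
      exact h3
    obtain ⟨t, ht⟩ := s3
    refine ⟨FreeGroup.invRev t, ?_⟩
    have e3 := congrArg FreeGroup.invRev ht
    rw [FreeGroup.invRev_append, FreeGroup.invRev_invRev, FreeGroup.invRev_invRev] at e3
    exact e3

end Pool.Agent.H5.FCX
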