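import Pool.Agent.H81.FX.Targets

/-!
Recursion for the total masses (row REC); every walker turns away from the identity at most once
(row NEW).
-/

set_option autoImplicit false

namespace Pool.Agent.H5.FCX

open Pool.Agent.H81.FX Finset

theorem pf_REC (hWRD : T_WRD) (hPRE : T_PRE) : T_REC := by
  intro ι _ t ht k hk
  obtain ⟨hP1, hP2, hP3, hP4⟩ := hPRE ι t ht
  refine ⟨fun x s hxs => ?_, ?_⟩
  · have hends : Ends (x * el s) s := (hWRD ι x s s).2.2.2.2.1 hxs
    set y := x * el s with hy
    set d : ℕ → ℝ := fun n => if 1 ≤ n ∧ t[n - 1]? = some s then k (y * (pre t n)⁻¹) else 0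
      with hd
    have h1 : Tot t k y ≤ New t k y + ∑ n ∈ range t.length, d n := by
      unfold Tot New
      rw [← Finset.sum_add_distrib]
      refine Finset.sum_le_sum fun n _ => ?_
      have hdn : 0 ≤ d n := by
        simp only [hd]
        split_ifs
        · exact hk _
        · exact le_rfl
      by_cases hc : ∀ s', t[n]? = some s' → Up y s'
      · rw [if_pos hc]
        by_cases hn : n = 0 ∨ ∀ s', t[n - 1]? = some s' → ¬ Ends y s'
        · rw [if_pos ⟨hc, hn⟩]
          linarith
        · rw [if_neg fun h => hn h.2, zero_add]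
          rw [not_or] at hn
          obtain ⟨hn0, hn1⟩ := hn
          push Not at hn1
          obtain ⟨s', hs', he⟩ := hn1
          have h2 : s' = s := by
            unfold Ends at he hends
            rw [he] at hends
            exact Option.some.inj hends
          rw [h2] at hs'
          simp only [hd]
          rw [if_pos ⟨by omega, hs'⟩]
      · rw [if_neg hc, if_neg fun h => hc h.1, zero_add]
        exact hdn
    have h2 : ∑ n ∈ range t.length, d n ≤ G t k x s := by
      unfold G
      rcases Nat.eq_zero_or_pos t.length with h0 | h0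
      · rw [h0]
        simp
      · obtain ⟨N, hN⟩ : ∃ N, t.length = N + 1 := ⟨t.length - 1, by omega⟩
        rw [hN, Finset.sum_range_succ', Finset.sum_range_succ]
        have h3 : d 0 = 0 := by
          simp only [hd]
          rw [if_neg]
          omega
        have h4 : ∑ n ∈ range N, d (n + 1) =
            ∑ n ∈ range N, if t[n]? = some s then k (x * (pre t n)⁻¹) else 0 := by
          refine Finset.sum_congr rfl fun n _ => ?_
          simp only [hd]
          rw [Nat.add_sub_cancel]
          by_cases hs : t[n]? = some s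
          · rw [if_pos ⟨by omega, hs⟩, if_pos hs, hP1 n s hs, hy, mul_inv_rev, ← mul_assoc,
              mul_assoc x, mul_inv_cancel, mul_one]
          · rw [if_neg fun h => hs h.2, if_neg hs]
        rw [h3, h4, add_zero]
        have h5 : 0 ≤ if t[N]? = some s then k (x * (pre t N)⁻¹) else 0 := by
          split_ifs
          · exact hk _
          · exact le_rfl
        linarith
    linarith
  · unfold Tot New
    refine Finset.sum_le_sum fun n _ => ?_
    have h1 : ∀ s, ¬ Ends (1 : FreeGroup ι) s := by
      intro s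
      unfold Ends
      rw [FreeGroup.toWord_one]
      simp
    by_cases hc : ∀ s', t[n]? = some s' → Up (1 : FreeGroup ι) s'
    · rw [if_pos hc, if_pos ⟨hc, Or.inr fun s _ => h1 s⟩]
    · rw [if_neg hc, if_neg fun h => hc h.1]

theorem pf_NEW (hWRD : T_WRD) (hPRE : T_PRE) : T_NEW := by
  intro ι _ t ht Z k hk hkZ X
  classical
  obtain ⟨hP1, hP2, hP3, hP4⟩ := hPRE ι t ht
  -- all steps after an up step are up
  have hup : ∀ (v : FreeGroup ι) (n : ℕ), (∀ s, t[n]? = some s → Up (v * pre t n) s) →
      ∀ m : ℕ, n + m + 1 ≤ t.length →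
        (∀ s, t[n + m]? = some s → Ends (v * pre t (n + m + 1)) s) ∧
        (∀ s, t[n + m + 1]? = some s → Up (v * pre t (n + m + 1)) s) := by
    intro v n hn m
    have step : ∀ j : ℕ, j < t.length → (∀ s, t[j]? = some s → Up (v * pre t j) s) →
        (∀ s, t[j]? = some s → Ends (v * pre t (j + 1)) s) ∧
        (∀ s, t[j + 1]? = some s → Up (v * pre t (j + 1)) s) := by
      intro j hj hjs
      have h2 : t[j]? = some t[j] := List.getElem?_eq_getElem hj
      have h3 := hjs _ h2
      have h4 := hP1 j _ h2
      refine ⟨fun s hs => ?_, fun s hs => ?_⟩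
      · rw [h2, Option.some.injEq] at hs
        rw [h4, ← mul_assoc, ← hs]
        exact (hWRD ι _ _ t[j]).2.2.2.2.1 h3
      · rw [h4, ← mul_assoc]
        exact (hWRD ι _ _ s).2.2.2.1 h3 (hP2 j _ s h2 hs)
    induction m with
    | zero =>
      intro hm
      exact step n (by omega) hn
    | succ m ih =>
      intro hm
      have h5 := ih (by omega)
      exact step (n + m + 1) (by omega) h5.2
  have huniq : ∀ (v : FreeGroup ι) (n n' : ℕ), n < n' → n' < t.length →
      (∀ s, t[n]? = some s → Up (v * pre t n) s) →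
      ¬ (n' = 0 ∨ ∀ s, t[n' - 1]? = some s → ¬ Ends (v * pre t n') s) := by
    intro v n n' hnn hn' h1 h2
    rcases h2 with h2 | h2
    · omega
    · obtain ⟨m, rfl⟩ : ∃ m, n' = n + m + 1 := ⟨n' - n - 1, by omega⟩
      have h3 := (hup v n h1 m (by omega)).1
      have h4 : n + m < t.length := by omega
      have h5 : t[n + m]? = some t[n + m] := List.getElem?_eq_getElem h4
      refine h2 t[n + m] ?_ (h3 _ h5)
      rw [Nat.add_sub_cancel]
      exact h5
  set C : FreeGroup ι × ℕ → Prop := fun p => (∀ s, t[p.2]? = some s → Up p.1 s) ∧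
    (p.2 = 0 ∨ ∀ s, t[p.2 - 1]? = some s → ¬ Ends p.1 s) with hC
  set vf : FreeGroup ι × ℕ → FreeGroup ι := fun p => p.1 * (pre t p.2)⁻¹ with hvf
  set S := (X ×ˢ range t.length).filter fun p => C p ∧ vf p ∈ Z with hS
  have h1 : ∑ x ∈ X, New t k x = ∑ p ∈ S, k (vf p) := by
    unfold New
    rw [← Finset.sum_product', hS, Finset.sum_filter]
    refine Finset.sum_congr rfl fun p _ => ?_
    by_cases hCp : C p
    · rw [if_pos (show (∀ s, t[p.2]? = some s → Up p.1 s) ∧
        (p.2 = 0 ∨ ∀ s, t[p.2 - 1]? = some s → ¬ Ends p.1 s) from hCp)]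
      by_cases hv : vf p ∈ Z
      · rw [if_pos ⟨hCp, hv⟩]
      · rw [if_neg fun h => hv h.2]
        exact hkZ _ hv
    · rw [if_neg (show ¬ ((∀ s, t[p.2]? = some s → Up p.1 s) ∧
        (p.2 = 0 ∨ ∀ s, t[p.2 - 1]? = some s → ¬ Ends p.1 s)) from hCp),
        if_neg fun h => hCp h.1]
  have hinj : Set.InjOn vf (S : Set (FreeGroup ι × ℕ)) := by
    intro p hp p' hp' hpp
    have hp1 := Finset.mem_filter.1 (Finset.mem_coe.1 hp)
    have hp2 := Finset.mem_filter.1 (Finset.mem_coe.1 hp')
    have hr1 := Finset.mem_range.1 (Finset.mem_product.1 hp1.1).2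
    have hr2 := Finset.mem_range.1 (Finset.mem_product.1 hp2.1).2
    have hx1 : p.1 = vf p * pre t p.2 := by
      simp only [hvf]
      rw [inv_mul_cancel_right]
    have hx2 : p'.1 = vf p * pre t p'.2 := by
      rw [hpp]
      simp only [hvf]
      rw [inv_mul_cancel_right]
    have hC1 := hp1.2.1
    have hC2 := hp2.2.1
    simp only [hC] at hC1 hC2
    rw [hx1] at hC1
    rw [hx2] at hC2
    have hn : p.2 = p'.2 := by
      rcases lt_trichotomy p.2 p'.2 with h | h | h
      · exact absurd hC2.2 (huniq (vf p) _ _ h hr2 hC1.1)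
      · exact h
      · exact absurd hC1.2 (huniq (vf p) _ _ h hr1 hC2.1)
    refine Prod.ext ?_ hn
    rw [hx1, hx2, hn]
  rw [h1, ← Finset.sum_image (f := k) hinj]
  refine Finset.sum_le_sum_of_subset_of_nonneg ?_ fun v _ _ => hk v
  intro v hv
  obtain ⟨p, hp, rfl⟩ := Finset.mem_image.1 hv
  exact (Finset.mem_filter.1 hp).2.2

end Pool.Agent.H5.FCX
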