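import Pool.Agent.H81.FX.Targets

/-!
The total mass is the sum over the letters (row TOT), and a convexity inequality (row CVX).
-/

set_option autoImplicit false

namespace Pool.Agent.H5.FCX

open Pool.Agent.H81.FX Finset

theorem pf_TOT : T_TOT := by
  intro ι _ t k x L hL
  unfold Tot G
  have h1 : ∀ s ∈ L, (if Up x s then ∑ n ∈ range t.length, (if t[n]? = some s then
      k (x * (pre t n)⁻¹) else 0) else 0) = ∑ n ∈ range t.length, (if Up x s then
        (if t[n]? = some s then k (x * (pre t n)⁻¹) else 0) else 0) := by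
    intro s _
    by_cases hu : Up x s
    · simp only [if_pos hu]
    · simp only [if_neg hu, Finset.sum_const_zero]
  rw [Finset.sum_congr rfl h1, Finset.sum_comm]
  refine Finset.sum_congr rfl fun n hn => ?_
  have hn' := Finset.mem_range.1 hn
  have h2 : t[n]? = some t[n] := List.getElem?_eq_getElem hn'
  have h3 : t[n] ∈ L := hL _ (List.getElem_mem hn')
  rw [Finset.sum_eq_single_of_mem t[n] h3]
  · rw [if_pos h2]
    by_cases hu : Up x t[n]
    · rw [if_pos hu, if_pos]
      intro s hs
      rw [h2, Option.some.injEq] at hs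
      rw [← hs]
      exact hu
    · rw [if_neg hu, if_neg]
      intro hall
      exact hu (hall _ h2)
  · intro s _ hs
    have h4 : ¬ t[n]? = some s := by
      rw [h2, Option.some.injEq]
      exact fun h => hs h.symm
    rw [if_neg h4, ite_self]

theorem pf_CVX : T_CVX := by
  intro α L A g q hq hg hA hAq hj
  classical
  set B := L.filter fun s => q ≤ g s with hB
  have h1 : ∑ s ∈ L, max (g s - q) 0 = ∑ s ∈ B, (g s - q) := by
    rw [hB, Finset.sum_filter]
    refine Finset.sum_congr rfl fun s _ => ?_
    by_cases h : q ≤ g s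
    · rw [if_pos h, max_eq_left (sub_nonneg.2 h)]
    · rw [if_neg h, max_eq_right (by linarith)]
  have h2 : ∑ s ∈ B, g s ≤ ∑ s ∈ L, g s :=
    Finset.sum_le_sum_of_subset_of_nonneg (Finset.filter_subset _ _) fun s hs _ => hg s hs
  have h3 : ∑ s ∈ B, (g s - q) = ∑ s ∈ B, g s - q * B.card := by
    rw [Finset.sum_sub_distrib, Finset.sum_const, nsmul_eq_mul, mul_comm]
  have hAB : A ⊆ B := fun s hs => Finset.mem_filter.2 ⟨hA hs, hAq s hs⟩
  rw [h1, h3]
  rcases Finset.eq_empty_or_nonempty B with hBe | hBn
  · have hAe : A = ∅ := Finset.subset_empty.1 (hBe ▸ hAB)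
    rw [hBe, hAe]
    simp
  · refine le_max_of_le_left ?_
    have h4 : (A.card : ℝ) + 1 ≤ B.card := by
      rcases Finset.eq_empty_or_nonempty A with hAe | hAn
      · rw [hAe]
        have h5 : 1 ≤ B.card := hBn.card_pos
        have h6 : (1 : ℝ) ≤ B.card := by exact_mod_cast h5
        simpa using h6
      · obtain ⟨j, hj1, hj2, hj3⟩ := hj hAn
        have h5 : insert j A ⊆ B := Finset.insert_subset (Finset.mem_filter.2 ⟨hj1, hj3⟩) hAB
        have h6 := Finset.card_le_card h5
        rw [Finset.card_insert_of_notMem hj2] at h6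
        exact_mod_cast h6
    nlinarith

end Pool.Agent.H5.FCX
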