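import Pool.Agent.H81.FX.Targets

/-!
Letters and last letters (row WRD).
-/

set_option autoImplicit false

namespace Pool.Agent.H5.FCX

open Pool.Agent.H81.FX Finset

variable {ι : Type}

theorem iv_iv (s : Lt ι) : iv (iv s) = s := by
  simp [iv]

theorem compat (a b : Lt ι) : (a.1 = b.1 → a.2 = b.2) ↔ a ≠ iv b := by
  obtain ⟨a1, a2⟩ := a
  obtain ⟨b1, b2⟩ := b
  simp only [iv, ne_eq, Prod.mk.injEq, not_and]
  cases a2 <;> cases b2 <;> simp

theorem red_concat (L : List (Lt ι)) (s : Lt ι) :
    FreeGroup.IsReduced (L ++ [s]) ↔ FreeGroup.IsReduced L ∧ L.getLast? ≠ some (iv s) := by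
  unfold FreeGroup.IsReduced
  rw [List.isChain_append]
  constructor
  · rintro ⟨h1, -, h3⟩
    refine ⟨h1, fun h4 => ?_⟩
    exact (compat _ _).1 (h3 (iv s) h4 s (by simp)) rfl
  · rintro ⟨h1, h2⟩
    refine ⟨h1, List.isChain_singleton _, fun a ha b hb => ?_⟩
    have hb' : s = b := by simpa using hb
    subst hb'
    refine (compat _ _).2 fun h5 => h2 ?_
    rw [h5] at ha
    exact ha

theorem el_inv (s : Lt ι) : (el s)⁻¹ = el (iv s) := by
  unfold el
  rw [FreeGroup.inv_mk]
  rfl

variable [DecidableEq ι]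

theorem up_word {x : FreeGroup ι} {s : Lt ι} (h : Up x s) :
    (x * el s).toWord = x.toWord ++ [s] := by
  have h1 : x * el s = FreeGroup.mk (x.toWord ++ [s]) := by
    conv_lhs => rw [← FreeGroup.mk_toWord (x := x)]
    unfold el
    rw [FreeGroup.mul_mk]
  rw [h1, FreeGroup.toWord_mk]
  exact ((red_concat _ _).2 ⟨FreeGroup.isReduced_toWord, h⟩).reduce_eq

theorem not_up {x : FreeGroup ι} {s : Lt ι} (h : ¬ Up x s) :
    x.toWord = x.toWord.dropLast ++ [iv s] := by
  unfold Up at h
  rw [ne_eq, not_not] at h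
  exact (List.dropLast_append_getLast? (iv s) h).symm

theorem down_word {x : FreeGroup ι} {s : Lt ι} (h : ¬ Up x s) :
    (x * el s).toWord = x.toWord.dropLast := by
  have h0 := not_up h
  have h1 : x = FreeGroup.mk x.toWord.dropLast * el (iv s) := by
    conv_lhs => rw [← FreeGroup.mk_toWord (x := x), h0]
    unfold el
    rw [FreeGroup.mul_mk]
  have h2 : x * el s = FreeGroup.mk x.toWord.dropLast := by
    conv_lhs => rw [h1]
    rw [← el_inv, mul_assoc, inv_mul_cancel, mul_one]
  have h3 : FreeGroup.IsReduced x.toWord.dropLast := by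
    have h4 : FreeGroup.IsReduced (x.toWord.dropLast ++ [iv s]) := by
      rw [← h0]
      exact FreeGroup.isReduced_toWord
    exact ((red_concat _ _).1 h4).1
  rw [h2, FreeGroup.toWord_mk, h3.reduce_eq]

theorem down_up {x : FreeGroup ι} {s : Lt ι} (h : ¬ Up x s) : Up (x * el s) (iv s) := by
  have h0 := not_up h
  have h4 : FreeGroup.IsReduced (x.toWord.dropLast ++ [iv s]) := by
    rw [← h0]
    exact FreeGroup.isReduced_toWord
  unfold Up
  rw [down_word h]
  exact ((red_concat _ _).1 h4).2

theorem up_up {x : FreeGroup ι} {s s' : Lt ι} (h : Up x s) (hs : s' ≠ iv s) :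
    Up (x * el s) s' := by
  unfold Up
  rw [up_word h, List.getLast?_concat, ne_eq, Option.some.injEq]
  intro h1
  exact hs (by rw [h1, iv_iv])

theorem ends_up {x : FreeGroup ι} {s : Lt ι} (h : Ends x s) : ¬ Up x (iv s) := by
  unfold Up
  rw [iv_iv, ne_eq, not_not]
  exact h

theorem pf_WRD : T_WRD := by
  intro ι _ x s s'
  refine ⟨up_word, down_word, down_up, up_up, fun h => ?_, fun h => ?_, fun h => ?_, fun h => ?_,
    el_inv s⟩
  · unfold Ends
    rw [up_word h, List.getLast?_concat]
  · rw [el_inv]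
    have h1 := down_up (ends_up h)
    rwa [iv_iv] at h1
  · unfold FreeGroup.norm
    rw [up_word h, List.length_append, List.length_singleton]
  · unfold FreeGroup.norm
    rw [down_word h, List.length_dropLast]
    have h1 : x.toWord.length ≠ 0 := by
      rw [not_up h]
      simp
    omega

end Pool.Agent.H5.FCX
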